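import Mathlib
import Pool.Graph.R_seed8.Results.MP_0764b2_an.ComplementationCriterion
import Pool.Agent.KS6_15.HS.Main

/-!
# Shadowing and generalized hyperbolicity of shift operators: Hilbertian fibres

The definitions `BanachSp`, `Op`, `HasShadowing`, `IsGeneralizedHyperbolic`, `seqSp`,
`IsShiftOperator` are those of the earlier result `ShadowingNotGenHyp` of this problem, and
`IsComplemented`, `IsOneComplementedIn`, `IsSep` those of `ComplementationCriterion`.
-/

set_option autoImplicit false

open scoped ENNReal Topology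
open Filter Set

noncomputable section

namespace Pool.Agent.Results.MP_0764b2_an.HilbertFibres

open Pool.Agent.Results.MP_0764b2_an.ShadowingNotGenHyp
open Pool.Agent.Results.MP_0764b2_an.ComplementationCriterion

variable {𝕜 : Type} [RCLike 𝕜]

/-- the Banach space `X` is isomorphic to a Hilbert space -/
def IsHilbertian (X : BanachSp 𝕜) : Prop :=
  ∃ (H : Type) (_ : NormedAddCommGroup H) (_ : InnerProductSpace 𝕜 H) (_ : CompleteSpace H),
    Nonempty (X.carrier ≃L[𝕜] H)

/-- the power `T ^ n` of the invertible operator `T` -/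
def power {X : BanachSp 𝕜} (T : Op X) : ℕ → Op X
  | 0 => ContinuousLinearEquiv.refl 𝕜 X.carrier
  | n + 1 => (power T n).trans T

lemma power_eq {X : BanachSp 𝕜} (T : Op X) (n : ℕ) : power T n = T ^ n := by
  induction n with
  | zero => rfl
  | succ n ih =>
    rw [pow_succ', ← ih]
    rfl

lemma aux_of_gen {X : BanachSp 𝕜} {T : Op X} (h : IsGeneralizedHyperbolic T) : GenHypAux T := by
  obtain ⟨M, N, h1, h2, h3, h4, h5⟩ := h
  exact ⟨M, N, h1, h2, h3, h4.1, h5.1, h4.2, h5.2⟩

lemma gen_of_aux {X : BanachSp 𝕜} {T : Op X} (h : GenHypAux T) : IsGeneralizedHyperbolic T := by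
  obtain ⟨M, N, h1, h2, h3, h4, h5, h6, h7⟩ := h
  exact ⟨M, N, h1, h2, h3, ⟨h4, h6⟩, ⟨h5, h7⟩⟩

/-- **Shadowing and generalized hyperbolicity of shift operators.**

(1) Let the Banach space `X` be isomorphic to a Hilbert space, let `(S_n)` be any sequence of
invertible operators of `X` which is bounded together with the inverses, and let `1 ≤ p ≤ ∞`. The
shift operator `σ ((x_n)_n) = (S_{n+1} x_{n+1})_n` on `ℓ^p(ℤ, X)` has the shadowing property if and
only if it is generalized hyperbolic.

(2) In particular this holds for every finite-dimensional `X`.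

(3) A bounded invertible operator of a space which is isomorphic to a Hilbert space has the
shadowing property if and only if one of its powers is generalized hyperbolic.

(4) For general `X` the equivalence fails: for every Banach space `Y` and every closed subspace `Z`
of `Y` there is a Banach space `X`, separable if `Y` is, and containing a 1-complemented copy of
`Y`, with an invertible operator `A` such that `A` and its shift operators on `ℓ^p(ℤ, X)` have
the shadowing property, and are generalized hyperbolic if and only if `Z` is complemented in `Y`.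

(5) For some separable `X` with an invertible operator `A` all these shift operators have the
shadowing property and are not generalized hyperbolic. -/
theorem result (𝕜 : Type) [RCLike 𝕜] :
    (∀ X : BanachSp 𝕜, IsHilbertian X → ∀ (p : ℝ≥0∞) (_ : Fact (1 ≤ p)) (S : ℤ → Op X)
      (σ : Op (seqSp X p)), IsShiftOperator S σ → (HasShadowing σ ↔ IsGeneralizedHyperbolic σ)) ∧
    (∀ X : BanachSp 𝕜, FiniteDimensional 𝕜 X.carrier → ∀ (p : ℝ≥0∞) (_ : Fact (1 ≤ p))
      (S : ℤ → Op X) (σ : Op (seqSp X p)), IsShiftOperator S σ →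
        (HasShadowing σ ↔ IsGeneralizedHyperbolic σ)) ∧
    (∀ X : BanachSp 𝕜, IsHilbertian X → ∀ T : Op X,
      HasShadowing T ↔ ∃ n : ℕ, 1 ≤ n ∧ IsGeneralizedHyperbolic (power T n)) ∧
    (∀ (Y : BanachSp 𝕜) (Z : Submodule 𝕜 Y.carrier), IsClosed (Z : Set Y.carrier) →
      ∃ (X : BanachSp 𝕜) (A : Op X), (IsSep Y → IsSep X) ∧ IsOneComplementedIn Y X ∧
        HasShadowing A ∧ (IsGeneralizedHyperbolic A ↔ ComplementationCriterion.IsComplemented Z) ∧
        ∀ (p : ℝ≥0∞) (_ : Fact (1 ≤ p)), ∃ σ : Op (seqSp X p), IsShiftOperator (fun _ => A) σ ∧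
          HasShadowing σ ∧
            (IsGeneralizedHyperbolic σ ↔ ComplementationCriterion.IsComplemented Z)) ∧
    (∃ (X : BanachSp 𝕜) (A : Op X), IsSep X ∧ HasShadowing A ∧ ¬ IsGeneralizedHyperbolic A ∧
        ∀ (p : ℝ≥0∞) (_ : Fact (1 ≤ p)), (p ≠ ∞ → IsSep (seqSp X p)) ∧
          ∃ σ : Op (seqSp X p), IsShiftOperator (fun _ => A) σ ∧
            HasShadowing σ ∧ ¬ IsGeneralizedHyperbolic σ) := by
  have part1 : ∀ X : BanachSp 𝕜, IsHilbertian X → ∀ (p : ℝ≥0∞) (_ : Fact (1 ≤ p))
      (S : ℤ → Op X) (σ : Op (seqSp X p)), IsShiftOperator S σ →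
        (HasShadowing σ ↔ IsGeneralizedHyperbolic σ) := by
    rintro X ⟨H, i1, i2, i3, ⟨Φ⟩⟩ p hp S σ ⟨⟨c, hc⟩, hσ⟩
    constructor
    · intro h
      exact gen_of_aux (Pool.Agent.KS6_15.HS.genHyp_of_shadowing (X := X.carrier) (p := p)
        (S := S) (σ := σ) Φ (c := c) (fun n x => (hc n x).1) (fun n x => (hc n x).2)
        (fun x k => hσ x k) h)
    · intro h
      have h1 : GenHypAux (Y := (seqSp X p).carrier) σ := aux_of_gen h
      have h2 : GenHypAux (Y := (seqSp X p).carrier) (σ ^ 1) := by rw [pow_one]; exact h1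
      exact Pool.Agent.KS6_15.HS.shadowing_of_pow le_rfl h2
  refine ⟨part1, ?_, ?_, (ComplementationCriterion.result 𝕜).1,
    (ComplementationCriterion.result 𝕜).2.2⟩
  · intro X hX p hp S σ hσ
    refine part1 X ?_ p hp S σ hσ
    refine ⟨EuclideanSpace 𝕜 (Fin (Module.finrank 𝕜 X.carrier)), inferInstance, inferInstance,
      inferInstance, ⟨ContinuousLinearEquiv.ofFinrankEq ?_⟩⟩
    rw [finrank_euclideanSpace_fin]
  · rintro X ⟨H, i1, i2, i3, ⟨Φ⟩⟩ T
    constructor
    · intro h
      obtain ⟨n, hn, h1⟩ := Pool.Agent.KS6_15.HS.pow_genHyp_of_shadowing (X := X.carrier) Φ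
        (T := T) h
      refine ⟨n, hn, ?_⟩
      rw [power_eq]
      exact gen_of_aux h1
    · rintro ⟨n, hn, h⟩
      rw [power_eq] at h
      exact Pool.Agent.KS6_15.HS.shadowing_of_pow hn (aux_of_gen h)

end Pool.Agent.Results.MP_0764b2_an.HilbertFibres
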